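import Pool.Agent.helper29.RS.SpecK
import Pool.Agent.helper62.QU.CA1

/-!
Row FL0 of project RS (MP_07c750_an), owner helper29: basic properties of the test functions and of `Wf`.
-/

set_option autoImplicit false

open scoped MatrixGroups ContDiff Topology UpperHalfPlane ComplexConjugate
open UpperHalfPlane MeasureTheory Filter Set

namespace Pool.Agent.RS

/-- The box. -/
theorem FL0_box (w : ℝ) : IsClosed {z : ℍ | |z.re| ≤ w ∧ |Real.log z.im| ≤ w} := by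
  have h1 : Continuous fun z : ℍ => |z.re| := UpperHalfPlane.continuous_re.abs
  have h2 : Continuous fun z : ℍ => |Real.log z.im| :=
    (UpperHalfPlane.continuous_im.log fun z => z.im_pos.ne').abs
  exact (isClosed_le h1 continuous_const).inter (isClosed_le h2 continuous_const)

theorem FL0_pt : Continuous fun p : ℝ × ℝ => pt p.1 p.2 := by
  refine UpperHalfPlane.isEmbedding_coe.continuous_iff.2 ?_
  have h : (UpperHalfPlane.coe ∘ fun p : ℝ × ℝ => pt p.1 p.2) =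
      fun p : ℝ × ℝ => (p.1 : ℂ) + (Real.exp p.2 : ℂ) * Complex.I := by
    funext p
    apply Complex.ext
    · simp [pt]
    · rw [Complex.add_im, Complex.mul_im, Complex.ofReal_im, Complex.ofReal_im, Complex.ofReal_re]
      simp [pt]
  rw [h]
  fun_prop

theorem FL0_boxc (w : ℝ) : IsCompact {z : ℍ | |z.re| ≤ w ∧ |Real.log z.im| ≤ w} := by
  have h1 : IsCompact ((fun p : ℝ × ℝ => pt p.1 p.2) '' (Icc (-w) w ×ˢ Icc (-w) w)) :=
    (isCompact_Icc.prod isCompact_Icc).image FL0_pt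
  refine h1.of_isClosed_subset (FL0_box w) ?_
  intro z hz
  refine ⟨(z.re, Real.log z.im), ⟨abs_le.1 hz.1, abs_le.1 hz.2⟩, ?_⟩
  apply UpperHalfPlane.ext
  apply Complex.ext
  · rfl
  · show Real.exp (Real.log z.im) = z.im
    exact Real.exp_log z.im_pos

/-- The closed support lies in the box. -/
theorem FL0_ts {w : ℝ} {c : ℍ → ℂ} (h : TB w c) : tsupport c ⊆ {z : ℍ | |z.re| ≤ w ∧ |Real.log z.im| ≤ w} :=
  closure_minimal (fun z hz => h.2 z hz) (FL0_box w)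

/-- Smoothness of the derivative. -/
theorem FL0_fd {c : ℍ → ℂ} (h : QU.CD ∞ c) : ContDiffOn ℝ ∞ (fderiv ℝ (QU.onC c)) QU.CA1_U :=
  ((contDiffOn_infty_iff_fderiv_of_isOpen QU.CA1_open).1 h).2

theorem FL0_re {w : ℂ} (hw : w ∈ QU.CA1_U) : (ofComplex w).re = w.re := by
  have h := QU.CA1_coe hw
  rw [← UpperHalfPlane.coe_re, h]

theorem FL0_px {c : ℍ → ℂ} (h : QU.CD ∞ c) : QU.CD ∞ (px c) := by
  have h1 : ContDiffOn ℝ ∞ (fun w => fderiv ℝ (QU.onC c) w 1) QU.CA1_U := (FL0_fd h).clm_apply contDiffOn_const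
  refine h1.congr fun w hw => ?_
  show fderiv ℝ (QU.onC c) ((ofComplex w : ℍ) : ℂ) 1 = _
  rw [QU.CA1_coe hw]

theorem FL0_dY {c : ℍ → ℂ} (h : QU.CD ∞ c) : QU.CD ∞ (QU.dY c) := by
  have h1 : ContDiffOn ℝ ∞ (fun w : ℂ => w.im • fderiv ℝ (QU.onC c) w Complex.I) QU.CA1_U :=
    (Complex.imCLM.contDiff.contDiffOn).smul ((FL0_fd h).clm_apply contDiffOn_const)
  exact h1.congr fun w hw => QU.CA1_dYon c hw

theorem FL0_rem {c : ℍ → ℂ} (h : QU.CD ∞ c) : QU.CD ∞ (xm c) := by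
  have h1 : ContDiffOn ℝ ∞ (fun w : ℂ => ((w.re : ℝ) : ℂ) * QU.onC c w) QU.CA1_U :=
    ((Complex.ofRealCLM.contDiff.comp Complex.reCLM.contDiff).contDiffOn).mul h
  refine h1.congr fun w hw => ?_
  show (((ofComplex w).re : ℝ) : ℂ) * c (ofComplex w) = _
  rw [FL0_re hw]
  rfl

theorem FL0_kW {c : ℍ → ℂ} (h : QU.CD ∞ c) : QU.CD ∞ (kW c) := by
  have h0 : ContDiff ℝ ∞ (fun w : ℂ => ((w.re : ℝ) : ℂ)) := Complex.ofRealCLM.contDiff.comp Complex.reCLM.contDiff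
  have h0' : ContDiff ℝ ∞ (fun w : ℂ => ((w.im : ℝ) : ℂ)) := Complex.ofRealCLM.contDiff.comp Complex.imCLM.contDiff
  have h1 : ContDiffOn ℝ ∞ (fun w : ℂ => (((w.re : ℝ) : ℂ) ^ 2 - ((w.im : ℝ) : ℂ) ^ 2) * QU.onC (px c) w +
      (2 * ((w.re : ℝ) : ℂ)) * QU.onC (QU.dY c) w) QU.CA1_U :=
    (((h0.pow 2).sub (h0'.pow 2)).contDiffOn.mul (FL0_px h)).add
      ((contDiff_const.mul h0).contDiffOn.mul (FL0_dY h))
  refine h1.congr fun w hw => ?_
  show (((ofComplex w).re ^ 2 - (ofComplex w).im ^ 2 : ℝ) : ℂ) * px c (ofComplex w) +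
    ((2 * (ofComplex w).re : ℝ) : ℂ) * QU.dY c (ofComplex w) = _
  rw [FL0_re hw, QU.CA1_im hw]
  push_cast
  rfl

theorem FL0_lap {c : ℍ → ℂ} (h : QU.CD ∞ c) : QU.CD ∞ (QU.lap c) := by
  have h1 : ContDiffOn ℝ ∞ (fderiv ℝ (fderiv ℝ (QU.onC c))) QU.CA1_U :=
    ((contDiffOn_infty_iff_fderiv_of_isOpen QU.CA1_open).1 (FL0_fd h)).2
  have h2 : ∀ v : ℂ, ContDiffOn ℝ ∞ (fun w => fderiv ℝ (fderiv ℝ (QU.onC c)) w v v) QU.CA1_U := fun v =>
    (h1.clm_apply contDiffOn_const).clm_apply contDiffOn_const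
  have h3 : ContDiffOn ℝ ∞ (fun w : ℂ => -(w.im ^ 2) • (fderiv ℝ (fderiv ℝ (QU.onC c)) w 1 1 +
      fderiv ℝ (fderiv ℝ (QU.onC c)) w Complex.I Complex.I)) QU.CA1_U :=
    ((Complex.imCLM.contDiff.pow 2).neg.contDiffOn).smul ((h2 1).add (h2 Complex.I))
  refine h3.congr fun w hw => ?_
  show -((ofComplex w).im ^ 2) • (fderiv ℝ (fderiv ℝ (QU.onC c)) ((ofComplex w : ℍ) : ℂ) 1 1 +
    fderiv ℝ (fderiv ℝ (QU.onC c)) ((ofComplex w : ℍ) : ℂ) Complex.I Complex.I) = _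
  rw [QU.CA1_im hw, QU.CA1_coe hw]

/-- Outside the closed support all derivatives vanish. -/
theorem FL0_zero {c : ℍ → ℂ} {z : ℍ} (hz : z ∉ tsupport c) :
    c z = 0 ∧ fderiv ℝ (QU.onC c) (z : ℂ) = 0 ∧ fderiv ℝ (fderiv ℝ (QU.onC c)) (z : ℂ) = 0 := by
  have h1 : c =ᶠ[𝓝 z] 0 := notMem_tsupport_iff_eventuallyEq.1 hz
  have h3 : Tendsto ofComplex (𝓝 (z : ℂ)) (𝓝 z) := by
    have h4 : ContinuousAt ofComplex (z : ℂ) := QU.CA1_ofc (QU.CA1_mem z)
    have h5 : ofComplex (z : ℂ) = z := ofComplex_apply z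
    unfold ContinuousAt at h4
    rwa [h5] at h4
  have h2 : QU.onC c =ᶠ[𝓝 (z : ℂ)] fun _ => 0 := by
    filter_upwards [h3.eventually h1] with w hw
    exact hw
  have h6 : fderiv ℝ (QU.onC c) =ᶠ[𝓝 (z : ℂ)] fun _ => 0 := by
    have h7 := h2.fderiv (𝕜 := ℝ)
    refine h7.trans (Filter.Eventually.of_forall fun w => ?_)
    simp
  refine ⟨h1.eq_of_nhds, h6.eq_of_nhds, ?_⟩
  rw [h6.fderiv_eq]
  simp

theorem FL0_im (a : ℂ) : ContDiffOn ℝ ∞ (fun w : ℂ => ((w.im : ℝ) : ℂ) ^ a) QU.CA1_U := by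
  have h1 : ContDiffOn ℝ ∞ (fun w : ℂ => Real.log w.im) QU.CA1_U := by
    intro w hw
    have hw' : Complex.imCLM w ≠ 0 := (ne_of_gt hw : w.im ≠ 0)
    exact ((Real.contDiffAt_log.2 hw').comp w Complex.imCLM.contDiff.contDiffAt).contDiffWithinAt
  have h2 : ContDiffOn ℝ ∞ (fun w : ℂ => Complex.exp (((Real.log w.im : ℝ) : ℂ) * a)) QU.CA1_U :=
    ContDiff.comp_contDiffOn (g := Complex.exp) (Complex.contDiff_exp (𝕜 := ℝ))
      ((Complex.ofRealCLM.contDiff.comp_contDiffOn h1).mul contDiffOn_const)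
  refine h2.congr fun w hw => ?_
  have hw0 : (0 : ℝ) < w.im := hw
  show ((w.im : ℝ) : ℂ) ^ a = Complex.exp (((Real.log w.im : ℝ) : ℂ) * a)
  rw [Complex.cpow_def_of_ne_zero (by exact_mod_cast hw0.ne'), Complex.ofReal_log hw0.le]

theorem FL0 : FL0_stmt := by
  refine ⟨?_, ?_, ?_⟩
  · intro w c h
    have key : ∀ P : ℍ → ℂ, QU.CD ∞ P → (∀ z, z ∉ tsupport c → P z = 0) → TB w P := by
      intro P hP h0
      refine ⟨hP, fun z hz => ?_⟩
      by_contra hcon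
      exact hz (h0 z fun hts => hcon (FL0_ts h hts))
    refine ⟨key _ (FL0_px h.1) ?_, key _ (FL0_rem h.1) ?_, key _ (FL0_dY h.1) ?_, key _ (FL0_kW h.1) ?_,
      key _ (FL0_lap h.1) ?_, ?_, ?_⟩
    · intro z hz
      show fderiv ℝ (QU.onC c) (z : ℂ) 1 = 0
      rw [(FL0_zero hz).2.1]
      rfl
    · intro z hz
      show ((z.re : ℝ) : ℂ) * c z = 0
      rw [(FL0_zero hz).1, mul_zero]
    · intro z hz
      show z.im • fderiv ℝ (QU.onC c) (z : ℂ) Complex.I = 0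
      rw [(FL0_zero hz).2.1]
      simp
    · intro z hz
      show ((z.re ^ 2 - z.im ^ 2 : ℝ) : ℂ) * fderiv ℝ (QU.onC c) (z : ℂ) 1 +
        ((2 * z.re : ℝ) : ℂ) * (z.im • fderiv ℝ (QU.onC c) (z : ℂ) Complex.I) = 0
      rw [(FL0_zero hz).2.1]
      simp
    · intro z hz
      show -(z.im ^ 2) • (fderiv ℝ (fderiv ℝ (QU.onC c)) (z : ℂ) 1 1 +
        fderiv ℝ (fderiv ℝ (QU.onC c)) (z : ℂ) Complex.I Complex.I) = 0
      rw [(FL0_zero hz).2.2]
      simp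
    · exact (FL0_boxc w).of_isClosed_subset (isClosed_tsupport c) (FL0_ts h)
    · exact (QU.CA1_cont c).1 (h.1.of_le (by simp))
  · intro w r c h
    refine ⟨?_, ?_⟩
    · have h1 : ContDiffOn ℝ ∞ (fun z : ℂ => QU.onC c z * ((z.im : ℝ) : ℂ) ^ ((1 / 2 : ℂ) + (r : ℂ) * Complex.I))
          QU.CA1_U := h.1.mul (FL0_im _)
      refine h1.congr fun z hz => ?_
      show c (ofComplex z) * (((ofComplex z).im : ℝ) : ℂ) ^ ((1 / 2 : ℂ) + (r : ℂ) * Complex.I) = _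
      rw [QU.CA1_im hz]
      rfl
    · have h1 : HasCompactSupport c := (FL0_boxc w).of_isClosed_subset (isClosed_tsupport c) (FL0_ts h)
      exact h1.mul_right
  · intro Γ f φ hf hfs hφ
    refine ⟨?_, ?_⟩
    · have h1 : ContinuousOn (fun g : SL(2, ℝ) => ∫ z : ℍ, f z * φ (g • z)) univ := by
        refine continuousOn_integral_of_compact_support (k := tsupport f) hfs ?_ ?_
        · refine Continuous.continuousOn ?_
          have h2 : Continuous fun p : SL(2, ℝ) × ℍ => p.1 • p.2 := continuous_smul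
          exact (hf.comp continuous_snd).mul (hφ.1.comp h2)
        · intro g z _ hz
          show f z * φ (g • z) = 0
          rw [image_eq_zero_of_notMem_tsupport hz, zero_mul]
      exact continuousOn_univ.1 h1
    · intro γ g
      show ∫ z : ℍ, f z * φ (((γ : SL(2, ℝ)) * g) • z) = ∫ z : ℍ, f z * φ (g • z)
      refine integral_congr_ae (ae_of_all _ fun z => ?_)
      show f z * φ (((γ : SL(2, ℝ)) * g) • z) = f z * φ (g • z)
      rw [mul_smul]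
      exact congrArg (fun t => f z * t) (hφ.2 γ (g • z))

end Pool.Agent.RS
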