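import Pool.Agent.helper62.RS.SpecT

/-!
Row TH1 of project RS (MP_07c750_an), owner helper62: the function of the three lines argument is entire.
-/

set_option autoImplicit false

open MeasureTheory Filter Set

namespace Pool.Agent.RS

/-- The integrals `∫ S^k e^(ζ S) w`. -/
noncomputable def TH1_I {Y : Type} [MeasurableSpace Y] (ν : Measure Y) (S : Y → ℝ) (w : Y → ℂ) (k : ℕ) (ζ : ℂ) : ℂ :=
  ∫ y, ((S y : ℝ) : ℂ) ^ k * (Complex.exp (ζ * ((S y : ℝ) : ℂ)) * w y) ∂ν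

theorem TH1_bd {Y : Type} (S : Y → ℝ) (w : Y → ℂ) (M m R : ℝ) (hM : 0 ≤ M) (hm : 0 ≤ m) (hS : ∀ y, |S y| ≤ M)
    (hw : ∀ y, ‖w y‖ ≤ m) (k : ℕ) (ζ : ℂ) (hζ : |ζ.re| ≤ R) (y : Y) :
    ‖((S y : ℝ) : ℂ) ^ k * (Complex.exp (ζ * ((S y : ℝ) : ℂ)) * w y)‖ ≤ M ^ k * (Real.exp (R * M) * m) := by
  rw [norm_mul, norm_mul, norm_pow, Complex.norm_real, Complex.norm_exp]
  have h1 : (ζ * ((S y : ℝ) : ℂ)).re ≤ R * M := by
    rw [Complex.re_mul_ofReal]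
    calc ζ.re * S y ≤ |ζ.re * S y| := le_abs_self _
      _ = |ζ.re| * |S y| := abs_mul _ _
      _ ≤ R * M := mul_le_mul hζ (hS y) (abs_nonneg _) ((abs_nonneg _).trans hζ)
  refine mul_le_mul (pow_le_pow_left₀ (norm_nonneg _) (hS y) k) ?_ (by positivity) (by positivity)
  exact mul_le_mul (Real.exp_le_exp.2 h1) (hw y) (norm_nonneg _) (Real.exp_pos _).le

theorem TH1_meas {Y : Type} [MeasurableSpace Y] (S : Y → ℝ) (w : Y → ℂ) (hS : Measurable S) (hw : Measurable w)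
    (k : ℕ) (ζ : ℂ) : Measurable fun y => ((S y : ℝ) : ℂ) ^ k * (Complex.exp (ζ * ((S y : ℝ) : ℂ)) * w y) := by
  have h1 : Measurable fun y => ((S y : ℝ) : ℂ) := Complex.measurable_ofReal.comp hS
  exact (h1.pow_const k).mul ((Complex.measurable_exp.comp (h1.const_mul ζ)).mul hw)

theorem TH1_int {Y : Type} [MeasurableSpace Y] (ν : Measure Y) [IsFiniteMeasure ν] (S : Y → ℝ) (w : Y → ℂ) (M m : ℝ)
    (hM : 0 ≤ M) (hm : 0 ≤ m) (hSm : Measurable S) (hwm : Measurable w) (hS : ∀ y, |S y| ≤ M)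
    (hw : ∀ y, ‖w y‖ ≤ m) (k : ℕ) (ζ : ℂ) :
    Integrable (fun y => ((S y : ℝ) : ℂ) ^ k * (Complex.exp (ζ * ((S y : ℝ) : ℂ)) * w y)) ν :=
  Integrable.of_bound (TH1_meas S w hSm hwm k ζ).aestronglyMeasurable _
    (ae_of_all _ fun y => TH1_bd S w M m |ζ.re| hM hm hS hw k ζ le_rfl y)

theorem TH1_deriv {Y : Type} [MeasurableSpace Y] (ν : Measure Y) [IsFiniteMeasure ν] (S : Y → ℝ) (w : Y → ℂ) (M m : ℝ)
    (hM : 0 ≤ M) (hm : 0 ≤ m) (hSm : Measurable S) (hwm : Measurable w) (hS : ∀ y, |S y| ≤ M)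
    (hw : ∀ y, ‖w y‖ ≤ m) (k : ℕ) (ζ : ℂ) : HasDerivAt (TH1_I ν S w k) (TH1_I ν S w (k + 1) ζ) ζ := by
  have h := hasDerivAt_integral_of_dominated_loc_of_deriv_le (μ := ν) (𝕜 := ℂ)
    (F := fun (ξ : ℂ) (y : Y) => ((S y : ℝ) : ℂ) ^ k * (Complex.exp (ξ * ((S y : ℝ) : ℂ)) * w y))
    (F' := fun (ξ : ℂ) (y : Y) => ((S y : ℝ) : ℂ) ^ (k + 1) * (Complex.exp (ξ * ((S y : ℝ) : ℂ)) * w y))
    (bound := fun _ => M ^ (k + 1) * (Real.exp ((|ζ.re| + 1) * M) * m)) (x₀ := ζ) (Metric.ball_mem_nhds ζ one_pos)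
    (Filter.Eventually.of_forall fun ξ => (TH1_meas S w hSm hwm k ξ).aestronglyMeasurable)
    (TH1_int ν S w M m hM hm hSm hwm hS hw k ζ)
    (TH1_meas S w hSm hwm (k + 1) ζ).aestronglyMeasurable
    (ae_of_all _ fun y ξ hξ => by
      refine TH1_bd S w M m (|ζ.re| + 1) hM hm hS hw (k + 1) ξ ?_ y
      rw [Metric.mem_ball, dist_eq_norm] at hξ
      have h1 : |(ξ - ζ).re| ≤ ‖ξ - ζ‖ := Complex.abs_re_le_norm _
      rw [Complex.sub_re] at h1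
      have h2 : |ξ.re| ≤ |ζ.re| + |ξ.re - ζ.re| := by
        have := abs_add_le ζ.re (ξ.re - ζ.re)
        rwa [add_sub_cancel] at this
      linarith)
    (integrable_const _)
    (ae_of_all _ fun y ξ _ => by
      have h1 : HasDerivAt (fun ξ : ℂ => Complex.exp (ξ * ((S y : ℝ) : ℂ)))
          (Complex.exp (ξ * ((S y : ℝ) : ℂ)) * ((S y : ℝ) : ℂ)) ξ := by
        have h2 : HasDerivAt (fun ξ : ℂ => ξ * ((S y : ℝ) : ℂ)) ((S y : ℝ) : ℂ) ξ := by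
          simpa using (hasDerivAt_id ξ).mul_const ((S y : ℝ) : ℂ)
        exact h2.cexp
      have h3 := (h1.mul_const (w y)).const_mul (((S y : ℝ) : ℂ) ^ k)
      have h4 : ((S y : ℝ) : ℂ) ^ k * (Complex.exp (ξ * ((S y : ℝ) : ℂ)) * ((S y : ℝ) : ℂ) * w y) =
          ((S y : ℝ) : ℂ) ^ (k + 1) * (Complex.exp (ξ * ((S y : ℝ) : ℂ)) * w y) := by ring
      rw [h4] at h3
      exact h3)
  exact h.2

/-- The iterated integral as an integral over the product. -/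
theorem TH1_iter {X : Type} [MeasurableSpace X] (μ : Measure X) [IsFiniteMeasure μ] (Φ : X → ℝ) (a b : X → ℂ)
    (K : X → X → ℂ) (L ma mb mK : ℝ) (hL : 0 ≤ L) (hma : 0 ≤ ma) (hmb : 0 ≤ mb) (hmK : 0 ≤ mK)
    (hΦm : Measurable Φ) (ham : Measurable a) (hbm : Measurable b) (hKm : Measurable (Function.uncurry K))
    (hΦ : ∀ x, |Φ x| ≤ L) (ha : ∀ x, ‖a x‖ ≤ ma) (hb : ∀ x, ‖b x‖ ≤ mb) (hK : ∀ x y, ‖K x y‖ ≤ mK)
    (k : ℕ) (ζ : ℂ) :
    TH1_I (μ.prod μ) (fun p => Φ p.1 + Φ p.2) (fun p => (starRingEnd ℂ) (a p.1) * K p.1 p.2 * b p.2) k ζ =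
      ∫ x, ∫ y, ((Φ x + Φ y : ℝ) : ℂ) ^ k * ((Complex.exp (ζ * Φ x) * (starRingEnd ℂ) (a x)) * K x y *
        (Complex.exp (ζ * Φ y) * b y)) ∂μ ∂μ := by
  have hS : Measurable fun p : X × X => Φ p.1 + Φ p.2 := (hΦm.comp measurable_fst).add (hΦm.comp measurable_snd)
  have hw : Measurable fun p : X × X => (starRingEnd ℂ) (a p.1) * K p.1 p.2 * b p.2 :=
    (((Complex.continuous_conj.measurable.comp (ham.comp measurable_fst))).mul hKm).mul (hbm.comp measurable_snd)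
  have hSb : ∀ p : X × X, |Φ p.1 + Φ p.2| ≤ 2 * L := by
    intro p
    have := abs_add_le (Φ p.1) (Φ p.2)
    linarith [hΦ p.1, hΦ p.2]
  have hwb : ∀ p : X × X, ‖(starRingEnd ℂ) (a p.1) * K p.1 p.2 * b p.2‖ ≤ ma * mK * mb := by
    intro p
    rw [norm_mul, norm_mul, RCLike.norm_conj]
    exact mul_le_mul (mul_le_mul (ha _) (hK _ _) (norm_nonneg _) hma) (hb _) (norm_nonneg _) (by positivity)
  have hint := TH1_int (μ.prod μ) (fun p : X × X => Φ p.1 + Φ p.2)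
    (fun p : X × X => (starRingEnd ℂ) (a p.1) * K p.1 p.2 * b p.2) (2 * L) (ma * mK * mb) (by positivity)
    (by positivity) hS hw hSb hwb k ζ
  unfold TH1_I
  rw [integral_prod _ hint]
  refine integral_congr_ae (ae_of_all _ fun x => integral_congr_ae (ae_of_all _ fun y => ?_))
  show ((Φ x + Φ y : ℝ) : ℂ) ^ k * (Complex.exp (ζ * ((Φ x + Φ y : ℝ) : ℂ)) *
    ((starRingEnd ℂ) (a x) * K x y * b y)) = _
  have h1 : Complex.exp (ζ * ((Φ x + Φ y : ℝ) : ℂ)) = Complex.exp (ζ * Φ x) * Complex.exp (ζ * Φ y) := by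
    rw [← Complex.exp_add]
    congr 1
    push_cast
    ring
  rw [h1]
  ring

theorem TH1 : TH1_stmt := by
  intro X _ μ _ N K a b A κ k₀ Φ hTD hΦ
  obtain ⟨hΦm, L', hL'⟩ := hΦ
  obtain ⟨L, hL0, hL⟩ : ∃ L : ℝ, 0 ≤ L ∧ ∀ x, |Φ x| ≤ L :=
    ⟨|L'|, abs_nonneg _, fun x => (hL' x).trans (le_abs_self _)⟩
  have hma : ∀ j, ∃ m : ℝ, 0 ≤ m ∧ ∀ x, ‖a j x‖ ≤ m := by
    intro j
    obtain ⟨-, m, hm⟩ := hTD.bma j
    exact ⟨|m|, abs_nonneg _, fun x => (hm x).trans (le_abs_self _)⟩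
  have hmb : ∀ j, ∃ m : ℝ, 0 ≤ m ∧ ∀ x, ‖b j x‖ ≤ m := by
    intro j
    obtain ⟨-, m, hm⟩ := hTD.bmb j
    exact ⟨|m|, abs_nonneg _, fun x => (hm x).trans (le_abs_self _)⟩
  choose ma hma0 hma using hma
  choose mb hmb0 hmb using hmb
  have hS : Measurable fun p : X × X => Φ p.1 + Φ p.2 := (hΦm.comp measurable_fst).add (hΦm.comp measurable_snd)
  have hw : ∀ j, Measurable fun p : X × X => (starRingEnd ℂ) (a j p.1) * K p.1 p.2 * b j p.2 := fun j =>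
    (((Complex.continuous_conj.measurable.comp ((hTD.bma j).1.comp measurable_fst))).mul hTD.measK).mul
      ((hTD.bmb j).1.comp measurable_snd)
  have hSb : ∀ p : X × X, |Φ p.1 + Φ p.2| ≤ 2 * L := by
    intro p
    have := abs_add_le (Φ p.1) (Φ p.2)
    linarith [hL p.1, hL p.2]
  have hwb : ∀ j, ∀ p : X × X, ‖(starRingEnd ℂ) (a j p.1) * K p.1 p.2 * b j p.2‖ ≤ ma j * k₀ * mb j := by
    intro j p
    rw [norm_mul, norm_mul, RCLike.norm_conj]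
    exact mul_le_mul (mul_le_mul (hma j _) (hTD.boundK _ _) (norm_nonneg _) (hma0 j)) (hmb j _) (norm_nonneg _)
      (mul_nonneg (hma0 j) hTD.posk)
  have hm0 : ∀ j, 0 ≤ ma j * k₀ * mb j := fun j => mul_nonneg (mul_nonneg (hma0 j) hTD.posk) (hmb0 j)
  obtain ⟨I, hI⟩ : ∃ I : Fin N → ℕ → ℂ → ℂ, I = fun j k ζ => TH1_I (μ.prod μ) (fun p : X × X => Φ p.1 + Φ p.2)
    (fun p : X × X => (starRingEnd ℂ) (a j p.1) * K p.1 p.2 * b j p.2) k ζ := ⟨_, rfl⟩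
  have hIi : ∀ j k ζ, I j k ζ = ∫ x, ∫ y, ((Φ x + Φ y : ℝ) : ℂ) ^ k *
      ((Complex.exp (ζ * Φ x) * (starRingEnd ℂ) (a j x)) * K x y * (Complex.exp (ζ * Φ y) * b j y)) ∂μ ∂μ := by
    intro j k ζ
    rw [hI]
    exact TH1_iter μ Φ (a j) (b j) K L (ma j) (mb j) k₀ hL0 (hma0 j) (hmb0 j) hTD.posk hΦm (hTD.bma j).1
      (hTD.bmb j).1 hTD.measK hL (hma j) (hmb j) hTD.boundK k ζ
  have hId : ∀ j k ζ, HasDerivAt (I j k) (I j (k + 1) ζ) ζ := by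
    intro j k ζ
    rw [hI]
    exact TH1_deriv (μ.prod μ) _ _ (2 * L) (ma j * k₀ * mb j) (by positivity) (hm0 j) hS (hw j) hSb (hwb j) k ζ
  have hTF : TF μ K a b Φ = fun ζ => ∑ j, I j 0 ζ := by
    funext ζ
    unfold TF
    refine Finset.sum_congr rfl fun j _ => ?_
    rw [hIi]
    simp only [pow_zero, one_mul]
  have hsum : ∀ (k : ℕ) (ζ : ℂ), HasDerivAt (fun ζ => ∑ j, I j k ζ) (∑ j, I j (k + 1) ζ) ζ := by
    intro k ζ
    have h := HasDerivAt.sum (u := (Finset.univ : Finset (Fin N))) (A := fun j => I j k)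
      (A' := fun j => I j (k + 1) ζ) (x := ζ) fun j _ => hId j k ζ
    have e : (fun ζ => ∑ j, I j k ζ) = ∑ j, I j k := by
      funext ζ
      rw [Finset.sum_apply]
    rw [e]
    exact h
  refine ⟨fun ζ => ∑ j, I j 1 ζ, fun ζ => ∑ j, I j 2 ζ, ?_, fun ζ => hsum 1 ζ, ?_, ?_, ?_⟩
  · intro ζ
    rw [hTF]
    exact hsum 0 ζ
  · intro ζ
    refine Finset.sum_congr rfl fun j _ => ?_
    rw [hIi]
    simp only [pow_one]
  · intro ζ
    refine Finset.sum_congr rfl fun j _ => ?_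
    rw [hIi]
  · intro R
    refine ⟨∑ j, (Real.exp (R * (2 * L)) * (ma j * k₀ * mb j)) * ((μ.prod μ) univ).toReal, fun ζ hζ => ?_⟩
    rw [hTF]
    refine norm_sum_le_of_le _ fun j _ => ?_
    rw [hI]
    show ‖∫ p : X × X, _ ∂(μ.prod μ)‖ ≤ _
    have h := norm_integral_le_of_norm_le_const (μ := μ.prod μ)
      (f := fun p : X × X => ((Φ p.1 + Φ p.2 : ℝ) : ℂ) ^ 0 * (Complex.exp (ζ * ((Φ p.1 + Φ p.2 : ℝ) : ℂ)) *
        ((starRingEnd ℂ) (a j p.1) * K p.1 p.2 * b j p.2)))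
      (C := Real.exp (R * (2 * L)) * (ma j * k₀ * mb j))
      (ae_of_all _ fun p => by
        have := TH1_bd (fun p : X × X => Φ p.1 + Φ p.2)
          (fun p : X × X => (starRingEnd ℂ) (a j p.1) * K p.1 p.2 * b j p.2) (2 * L) (ma j * k₀ * mb j) R
          (by positivity) (hm0 j) hSb (hwb j) 0 ζ hζ p
        have e : (2 * L) ^ 0 * (Real.exp (R * (2 * L)) * (ma j * k₀ * mb j)) =
            Real.exp (R * (2 * L)) * (ma j * k₀ * mb j) := by rw [pow_zero, one_mul]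
        rw [e] at this
        exact this)
    exact h

end Pool.Agent.RS
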